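import Pool.Agent.LocHopf.Comm

/-!
# A finite-dimensional local Hopf algebra that is not symmetric

For every field `k` of characteristic two we construct a Hopf algebra `H` of dimension at most
`1024` over `k` which is local and whose underlying algebra is not symmetric.

`H` is generated by `a, b, z, x, y` with relations: `z` central, `z^2 = 0`, `a^4 = b^4 = x^4 = 0`,
`y^8 = 0`, `[a,b] = 0`, `[a,x] = z`, `[a,y] = x`, `[b,x] = a z`, `[b,y] = a x + z`, `[x,y] = z x`.
The elements `a, z` are primitive and
`Δ b = b ⊗ 1 + 1 ⊗ b + a ⊗ a`, `Δ x = x ⊗ 1 + 1 ⊗ x + a ⊗ z`,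
`Δ y = y ⊗ 1 + 1 ⊗ y + a ⊗ x + b ⊗ z`.
-/

namespace Pool.Agent.Results.MP_af7f8e_al.NonSymmetric

universe u

/-- A ring is local if it has exactly one maximal left ideal. (In Mathlib, `Ideal A` is the type of
left ideals of `A`.) -/
def IsLocalAlg (A : Type u) [Ring A] : Prop :=
  ∃! I : Ideal A, I.IsMaximal

/-- A `k`-algebra is symmetric if there is a linear form `lam` with `lam (p q) = lam (q p)` whose
kernel contains no nonzero left ideal. -/
def IsSymmetricAlg (k A : Type u) [Field k] [Ring A] [Algebra k A] : Prop :=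
  ∃ lam : A →ₗ[k] k, (∀ p q : A, lam (p * q) = lam (q * p)) ∧
    ∀ I : Ideal A, (∀ x ∈ I, lam x = 0) → I = ⊥

/-- Over every field of characteristic two there is a finite-dimensional local Hopf algebra whose
underlying algebra is not symmetric. -/
theorem result (k : Type u) [Field k] [CharP k 2] :
    ∃ (H : Type u) (_ : Ring H) (_ : HopfAlgebra k H),
      Module.Finite k H ∧ IsLocalAlg H ∧ ¬ IsSymmetricAlg k H := by
  refine ⟨LocHopf.H k, inferInstance, inferInstance, inferInstance, LocHopf.local_H k, ?_⟩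
  rintro ⟨lam, htr, hker⟩
  have h0 := LocHopf.trace_Lam k lam htr
  have h1 : Ideal.span {LocHopf.Lam k} = ⊥ := by
    apply hker
    intro w hw
    obtain ⟨c, rfl⟩ := Ideal.mem_span_singleton'.1 hw
    rw [LocHopf.mul_Lam, map_smul, h0, smul_zero]
  have h2 : LocHopf.Lam k ∈ (⊥ : Ideal (LocHopf.H k)) := by
    rw [← h1]
    exact Ideal.subset_span rfl
  exact LocHopf.Lam_ne_zero k (by simpa using h2)

end Pool.Agent.Results.MP_af7f8e_al.NonSymmetric
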